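import Pool.Agent.Helper10.QRH.StC

/-!
# Project QRH (MP_768c9c_nt), module C0c: parameters and weights
-/

set_option autoImplicit false

namespace Pool.Agent.Helper55.QRH

open Pool.Agent.Helper10.QRH

theorem phiFacts (P : Par) : PhiFacts P := by
  have hm : 0 < min P.κ (min P.η P.φ) := lt_min P.κ0 (lt_min P.η0 P.φ0)
  have hm1 : min P.κ (min P.η P.φ) ≤ P.κ := min_le_left _ _
  have hm2 : min P.κ (min P.η P.φ) ≤ P.η := le_trans (min_le_right _ _) (min_le_left _ _)
  have hm3 : min P.κ (min P.η P.φ) ≤ P.φ := le_trans (min_le_right _ _) (min_le_right _ _)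
  have hk1 := P.κ1
  have hν : P.ν = min P.κ (min P.η P.φ) / 200 := rfl
  have hν0 : 0 < P.ν := by rw [hν]; positivity
  have hν1 : P.ν ≤ 1/1600 := by rw [hν]; linarith
  have hd : P.d = P.ν / 100 := rfl
  have hs : P.s = P.ν / 200 := rfl
  have hg : P.g = min (P.ν / 1000) (P.κ * P.η / 10) := rfl
  have hs1 : P.s - 1 < 0 := by rw [hs]; linarith
  have hpos : ∀ {x : ℝ}, 1 < x → 0 < P.phi x := by
    intro x hx
    have h1 : 0 < Real.log x := Real.log_pos hx
    have h2 : 0 < x ^ (P.s - 1) := Real.rpow_pos_of_pos (by linarith) _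
    unfold Par.phi
    positivity
  have hanti : ∀ {x y : ℝ}, 1 < x → x ≤ y → P.phi y ≤ P.phi x := by
    intro x y hx hxy
    have h1 : 0 < Real.log x := Real.log_pos hx
    have h3 : Real.log x ≤ Real.log y := Real.log_le_log (by linarith) hxy
    have h4 : y ^ (P.s - 1) ≤ x ^ (P.s - 1) :=
      Real.rpow_le_rpow_of_nonpos (by linarith) hxy hs1.le
    have h5 : 0 < x ^ (P.s - 1) := Real.rpow_pos_of_pos (by linarith) _
    unfold Par.phi
    exact div_le_div₀ h5.le h4 (by positivity) (pow_le_pow_left₀ h1.le h3 2)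
  have hvpos : ∀ k : ℕ, 0 < P.v k := by
    intro k
    unfold Par.v
    apply hpos
    have : (2 : ℝ) ^ (k + 1) = 2 ^ k * 2 := pow_succ _ _
    have h2 : (1 : ℝ) ≤ 2 ^ k := one_le_pow₀ (by norm_num)
    linarith
  have hnsel : ∀ k : ℕ, 1 ≤ P.nsel k := by
    intro k
    unfold Par.nsel
    apply Nat.one_le_ceil_iff.mpr
    have : (0 : ℝ) < (2 : ℝ) ^ (-(P.g * k)) := Real.rpow_pos_of_pos (by norm_num) _
    positivity
  have hGk : ∀ {k : ℕ}, 1 ≤ k → 0 < P.Gk k := by
    intro k hk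
    unfold Par.Gk
    have h1 : (0 : ℝ) < (2 : ℝ) ^ ((P.s - 1) * k) := Real.rpow_pos_of_pos (by norm_num) _
    have h2 : (0 : ℝ) < (k : ℝ) := by exact_mod_cast hk
    positivity
  refine ⟨⟨hν0, hν1, ?_, ?_, ?_, hd, hs, ?_, ?_, ?_⟩, hpos, hanti, ?_, hvpos, ?_, ?_, hGk, hnsel, ?_, ?_⟩
  · rw [hν]; linarith
  · rw [hν]; linarith
  · rw [hν]; linarith
  · rw [hg]
    apply lt_min (by positivity)
    have := P.κ0
    have := P.η0
    positivity
  · rw [hg]; exact min_le_left _ _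
  · rw [hg]; exact min_le_right _ _
  · intro x hx
    have hlog3 : (1 : ℝ) ≤ Real.log 3 := by
      rw [Real.le_log_iff_exp_le (by norm_num)]
      have := Real.exp_one_lt_d9
      linarith
    have h1 : (1 : ℝ) ≤ Real.log x := le_trans hlog3 (Real.log_le_log (by norm_num) hx)
    have h5 : 0 < x ^ (P.s - 1) := Real.rpow_pos_of_pos (by linarith) _
    unfold Par.phi
    rw [div_le_iff₀ (by positivity)]
    nlinarith [one_le_pow₀ h1 (n := 2)]
  · intro n hn
    unfold Par.v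
    apply hanti
    · exact_mod_cast hn
    · exact_mod_cast (Nat.lt_pow_succ_log_self (b := 2) (by norm_num) n).le
  · intro n hn
    have hL : 1 ≤ Nat.log 2 n := Nat.log_pos (by norm_num) hn
    set L := Nat.log 2 n with hLdef
    have h2L : (2 : ℝ) ^ L ≤ n := by
      exact_mod_cast Nat.pow_log_le_self 2 (by omega : n ≠ 0)
    have hlt : (1 : ℝ) < 2 ^ L := one_lt_pow₀ (by norm_num) (by omega)
    refine le_trans (hanti hlt h2L) ?_
    unfold Par.v Par.phi
    rw [Real.log_pow, Real.log_pow]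
    have hlog2 : 0 < Real.log 2 := Real.log_pos (by norm_num)
    have hLr : (1 : ℝ) ≤ (L : ℝ) := by exact_mod_cast hL
    have e1 : ((2 : ℝ) ^ (L + 1)) ^ (P.s - 1) = ((2 : ℝ) ^ L) ^ (P.s - 1) * (2 : ℝ) ^ (P.s - 1) := by
      rw [pow_succ, Real.mul_rpow (by positivity) (by norm_num)]
    have e2 : (1/2 : ℝ) ≤ (2 : ℝ) ^ (P.s - 1) := by
      have : (2 : ℝ) ^ (-1 : ℝ) ≤ (2 : ℝ) ^ (P.s - 1) :=
        Real.rpow_le_rpow_of_exponent_le (by norm_num) (by rw [hs]; linarith)
      rw [Real.rpow_neg_one] at this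
      linarith
    rw [e1]
    have hA : 0 < ((2 : ℝ) ^ L) ^ (P.s - 1) := Real.rpow_pos_of_pos (by positivity) _
    set A := ((2 : ℝ) ^ L) ^ (P.s - 1)
    set B := (2 : ℝ) ^ (P.s - 1)
    push_cast
    rw [← mul_div_assoc, div_le_div_iff₀ (by positivity) (by positivity)]
    have h3 : (((L : ℝ) + 1) * Real.log 2) ^ 2 ≤ 4 * ((L : ℝ) * Real.log 2) ^ 2 := by
      have : ((L : ℝ) + 1) * Real.log 2 ≤ 2 * ((L : ℝ) * Real.log 2) := by nlinarith
      calc (((L : ℝ) + 1) * Real.log 2) ^ 2 ≤ (2 * ((L : ℝ) * Real.log 2)) ^ 2 :=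
            pow_le_pow_left₀ (by positivity) this 2
        _ = 4 * ((L : ℝ) * Real.log 2) ^ 2 := by ring
    have hQ : 0 < ((L : ℝ) * Real.log 2) ^ 2 := by positivity
    calc A * (((L : ℝ) + 1) * Real.log 2) ^ 2 ≤ A * (4 * ((L : ℝ) * Real.log 2) ^ 2) :=
          mul_le_mul_of_nonneg_left h3 hA.le
      _ = (8 * (A * (1/2))) * ((L : ℝ) * Real.log 2) ^ 2 := by ring
      _ ≤ (8 * (A * B)) * ((L : ℝ) * Real.log 2) ^ 2 := by
          apply mul_le_mul_of_nonneg_right _ hQ.le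
          have := mul_le_mul_of_nonneg_left e2 hA.le
          linarith
  · intro k hk
    unfold Par.Wk
    have h1 := hGk hk
    have h2 : (0 : ℝ) < (P.nsel k : ℝ) := by exact_mod_cast (hnsel k)
    positivity
  · intro m
    unfold Par.lo
    apply List.prod_pos
    intro a ha
    rw [List.mem_map] at ha
    obtain ⟨p, _, rfl⟩ := ha
    have := hvpos (Nat.log 2 p)
    positivity

end Pool.Agent.Helper55.QRH
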