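import Pool.Agent.Helper10.QRH.StC

/-!
# Project QRH (MP_768c9c_nt), module C10: signs, majorants, values at own integers, fixed point
-/

set_option autoImplicit false
open scoped Classical

namespace Pool.Agent.Helper55.QRH

open Pool.Agent.Helper10.QRH

/-! ### signs -/

theorem sgSum (P : Par) : SgSum P := by
  intro k0 a b
  have hr : ∀ p, |P.sg k0 p| = 1 := by
    intro p
    unfold Par.sg
    rw [abs_pow]
    simp
  have key : ∀ n, ∑ p ∈ (Finset.Ico a (a + n)).filter (P.Ord k0), P.sg k0 p =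
      (P.sg k0 a - P.sg k0 (a + n)) / 2 := by
    intro n
    induction n with
    | zero => simp
    | succ n ih =>
      have h1 : Finset.Ico a (a + (n + 1)) = insert (a + n) (Finset.Ico a (a + n)) := by
        ext x
        simp only [Finset.mem_Ico, Finset.mem_insert]
        omega
      have hnot : a + n ∉ Finset.Ico a (a + n) := by simp
      have h3 : Finset.range (a + (n + 1)) = insert (a + n) (Finset.range (a + n)) := by
        ext x
        simp only [Finset.mem_range, Finset.mem_insert]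
        omega
      have hnot' : a + n ∉ Finset.range (a + n) := by simp
      rw [h1, Finset.filter_insert]
      by_cases ho : P.Ord k0 (a + n)
      · rw [if_pos ho, Finset.sum_insert (by simp), ih]
        have h2 : P.sg k0 (a + (n + 1)) = - P.sg k0 (a + n) := by
          unfold Par.sg
          rw [h3, Finset.filter_insert, if_pos ho, Finset.card_insert_of_notMem (by simp), pow_succ]
          ring
        rw [h2]
        ring
      · rw [if_neg ho, ih]
        have h2 : P.sg k0 (a + (n + 1)) = P.sg k0 (a + n) := by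
          unfold Par.sg
          rw [h3, Finset.filter_insert, if_neg ho]
        rw [h2]
  by_cases hab : a ≤ b
  · obtain ⟨n, rfl⟩ := Nat.exists_eq_add_of_le hab
    rw [key n, abs_div]
    have h1 := abs_sub (P.sg k0 a) (P.sg k0 (a + n))
    rw [hr, hr] at h1
    rw [abs_of_pos (by norm_num : (0 : ℝ) < 2)]
    linarith
  · rw [Finset.Ico_eq_empty (by omega)]
    simp

theorem sgm_sq (P : Par) (k0 m : ℕ) : P.sgm k0 m * P.sgm k0 m = 1 := by
  unfold Par.sgm
  induction m.primeFactorsList with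
  | nil => simp
  | cons p l ih =>
    rw [List.map_cons, List.prod_cons]
    have h : P.sg k0 p * P.sg k0 p = 1 := by
      unfold Par.sg
      rw [← mul_pow]
      norm_num
    calc P.sg k0 p * (List.map (P.sg k0) l).prod * (P.sg k0 p * (List.map (P.sg k0) l).prod)
        = (P.sg k0 p * P.sg k0 p) * ((List.map (P.sg k0) l).prod * (List.map (P.sg k0) l).prod) := by
          ring
      _ = 1 := by rw [h, ih, one_mul]

theorem abs_sgm (P : Par) (k0 m : ℕ) : |P.sgm k0 m| = 1 := by
  have h := sgm_sq P k0 m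
  have h2 : |P.sgm k0 m| * |P.sgm k0 m| = 1 := by rw [← abs_mul, h, abs_one]
  nlinarith [abs_nonneg (P.sgm k0 m)]

theorem abs_sg (P : Par) (k0 p : ℕ) : |P.sg k0 p| = 1 := by
  unfold Par.sg
  rw [abs_pow]
  simp

/-! ### products over lists -/

theorem list_bound (a a' W : ℕ → ℝ) (D : ℝ) (hD : 0 ≤ D) (l : List ℕ)
    (hW : ∀ p ∈ l, 0 ≤ W p)
    (h1 : ∀ p ∈ l, |a p| ≤ W p / 2) (h1' : ∀ p ∈ l, |a' p| ≤ W p / 2)
    (h2 : ∀ p ∈ l, |a p - a' p| ≤ W p / 2 * D) :
    0 ≤ (l.map W).prod ∧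
    |(l.map a).prod| ≤ (l.map W).prod / 2 ^ l.length ∧
    |(l.map a').prod| ≤ (l.map W).prod / 2 ^ l.length ∧
    |(l.map a).prod - (l.map a').prod| ≤ l.length * ((l.map W).prod / 2 ^ l.length) * D := by
  induction l with
  | nil => simp
  | cons p l ih =>
    obtain ⟨i0, i1, i2, i3⟩ := ih (fun q hq => hW q (List.mem_cons_of_mem _ hq))
      (fun q hq => h1 q (List.mem_cons_of_mem _ hq)) (fun q hq => h1' q (List.mem_cons_of_mem _ hq))
      (fun q hq => h2 q (List.mem_cons_of_mem _ hq))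
    have w0 := hW p List.mem_cons_self
    have w1 := h1 p List.mem_cons_self
    have w1' := h1' p List.mem_cons_self
    have w2 := h2 p List.mem_cons_self
    simp only [List.map_cons, List.prod_cons, List.length_cons]
    set A := (l.map a).prod
    set A' := (l.map a').prod
    set Q := (l.map W).prod
    have e : W p * Q / 2 ^ (l.length + 1) = (W p / 2) * (Q / 2 ^ l.length) := by
      rw [pow_succ]
      field_simp
    rw [e]
    have hQ2 : 0 ≤ Q / 2 ^ l.length := by positivity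
    refine ⟨mul_nonneg w0 i0, ?_, ?_, ?_⟩
    · rw [abs_mul]
      exact mul_le_mul w1 i1 (abs_nonneg _) (by positivity)
    · rw [abs_mul]
      exact mul_le_mul w1' i2 (abs_nonneg _) (by positivity)
    · have h3 : a p * A - a' p * A' = a p * (A - A') + (a p - a' p) * A' := by ring
      rw [h3]
      refine le_trans (abs_add_le _ _) ?_
      rw [abs_mul, abs_mul]
      have h4 : |a p| * |A - A'| ≤ (W p / 2) * (l.length * (Q / 2 ^ l.length) * D) :=
        mul_le_mul w1 i3 (abs_nonneg _) (by positivity)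
      have h5 : |a p - a' p| * |A'| ≤ (W p / 2 * D) * (Q / 2 ^ l.length) :=
        mul_le_mul w2 i2 (abs_nonneg _) (by positivity)
      push_cast
      calc |a p| * |A - A'| + |a p - a' p| * |A'| ≤
            (W p / 2) * (l.length * (Q / 2 ^ l.length) * D) + (W p / 2 * D) * (Q / 2 ^ l.length) :=
            add_le_add h4 h5
        _ = ((l.length : ℝ) + 1) * (W p / 2 * (Q / 2 ^ l.length)) * D := by ring

theorem list_lip (a a' u : ℕ → ℝ) (D : ℝ) (hD : 0 ≤ D) (l : List ℕ)
    (hu : ∀ p ∈ l, 0 ≤ u p)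
    (h1 : ∀ p ∈ l, |a p| ≤ 5/3 * u p) (h1' : ∀ p ∈ l, |a' p| ≤ 5/3 * u p)
    (h2 : ∀ p ∈ l, |a p - a' p| ≤ 5/3 * u p * D) :
    0 ≤ (l.map u).prod ∧
    |(l.map a).prod| ≤ (5/3) ^ l.length * (l.map u).prod ∧
    |(l.map a').prod| ≤ (5/3) ^ l.length * (l.map u).prod ∧
    |(l.map a).prod - (l.map a').prod| ≤ l.length * ((5/3) ^ l.length * (l.map u).prod) * D := by
  induction l with
  | nil => simp
  | cons p l ih =>
    obtain ⟨i0, i1, i2, i3⟩ := ih (fun q hq => hu q (List.mem_cons_of_mem _ hq))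
      (fun q hq => h1 q (List.mem_cons_of_mem _ hq)) (fun q hq => h1' q (List.mem_cons_of_mem _ hq))
      (fun q hq => h2 q (List.mem_cons_of_mem _ hq))
    have w0 := hu p List.mem_cons_self
    have w1 := h1 p List.mem_cons_self
    have w1' := h1' p List.mem_cons_self
    have w2 := h2 p List.mem_cons_self
    simp only [List.map_cons, List.prod_cons, List.length_cons]
    set A := (l.map a).prod
    set A' := (l.map a').prod
    set Q := (l.map u).prod
    have e : (5/3 : ℝ) ^ (l.length + 1) * (u p * Q) = (5/3 * u p) * ((5/3) ^ l.length * Q) := by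
      rw [pow_succ]
      ring
    rw [e]
    have hQ2 : 0 ≤ (5/3 : ℝ) ^ l.length * Q := by positivity
    refine ⟨mul_nonneg w0 i0, ?_, ?_, ?_⟩
    · rw [abs_mul]
      exact mul_le_mul w1 i1 (abs_nonneg _) (by positivity)
    · rw [abs_mul]
      exact mul_le_mul w1' i2 (abs_nonneg _) (by positivity)
    · have h3 : a p * A - a' p * A' = a p * (A - A') + (a p - a' p) * A' := by ring
      rw [h3]
      refine le_trans (abs_add_le _ _) ?_
      rw [abs_mul, abs_mul]
      have h4 : |a p| * |A - A'| ≤ (5/3 * u p) * (l.length * ((5/3) ^ l.length * Q) * D) :=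
        mul_le_mul w1 i3 (abs_nonneg _) (by positivity)
      have h5 : |a p - a' p| * |A'| ≤ (5/3 * u p * D) * ((5/3) ^ l.length * Q) :=
        mul_le_mul w2 i2 (abs_nonneg _) (by positivity)
      push_cast
      calc |a p| * |A - A'| + |a p - a' p| * |A'| ≤
            (5/3 * u p) * (l.length * ((5/3) ^ l.length * Q) * D) +
              (5/3 * u p * D) * ((5/3) ^ l.length * Q) := add_le_add h4 h5
        _ = ((l.length : ℝ) + 1) * ((5/3 * u p) * ((5/3) ^ l.length * Q)) * D := by ring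

/-! ### bounds at primes -/

section
variable (P : Par) (h0 : PhiFacts P) (hw : WFacts P) {k0 : ℕ} (S : P.Sel k0)
include h0 hw

theorem fp_bound (hk0 : 1 ≤ k0) (t : ℕ × ℕ → ℝ) (ht : ∀ i, |t i| ≤ 1) {p : ℕ} (hp : p.Prime) :
    |S.fp t p| ≤ S.wt p / 2 := by
  unfold Par.Sel.fp Par.Sel.wt
  by_cases hc : S.ctrl p
  · rw [if_pos hc, if_pos hc, abs_mul, abs_mul, abs_sgm, mul_one]
    have := hw.w_pos S hk0 hc
    rw [abs_of_pos this]
    have h1 := mul_le_mul_of_nonneg_right (ht (P.cix k0 (p * S.mo p))) this.le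
    linarith
  · rw [if_neg hc, if_neg hc]
    by_cases ho : P.Ord k0 p
    · rw [if_pos ho, if_pos ho]
      have hv := h0.v_pos (Nat.log 2 p)
      have hv2 := h0.v_le_phi hp.two_le
      rw [abs_div, abs_mul, abs_of_pos hv, abs_of_pos (by norm_num : (0 : ℝ) < 4)]
      have h1 : |P.sg k0 p + (if 2 ^ (k0 - 1) ≤ p then t (P.cix k0 p) / 4 else 0)| ≤ 5/4 := by
        refine le_trans (abs_add_le _ _) ?_
        rw [abs_sg]
        split_ifs
        · rw [abs_div, abs_of_pos (by norm_num : (0 : ℝ) < 4)]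
          have := ht (P.cix k0 p)
          linarith
        · norm_num
      have h2 := mul_le_mul_of_nonneg_right h1 hv.le
      linarith
    · rw [if_neg ho, if_neg ho]
      simp

theorem fp_lip (hk0 : 1 ≤ k0) (t t' : ℕ × ℕ → ℝ) (D : ℝ)
    (hD : ∀ i, |t i - t' i| ≤ D) {p : ℕ} (hp : p.Prime) :
    |S.fp t p - S.fp t' p| ≤ S.wt p / 2 * D := by
  have hD0 : 0 ≤ D := le_trans (abs_nonneg _) (hD (0, 0))
  unfold Par.Sel.fp Par.Sel.wt
  by_cases hc : S.ctrl p
  · rw [if_pos hc, if_pos hc, if_pos hc]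
    have hwp := hw.w_pos S hk0 hc
    have e : t (P.cix k0 (p * S.mo p)) * P.sgm k0 (S.mo p) * S.w p -
        t' (P.cix k0 (p * S.mo p)) * P.sgm k0 (S.mo p) * S.w p =
        (t (P.cix k0 (p * S.mo p)) - t' (P.cix k0 (p * S.mo p))) * P.sgm k0 (S.mo p) * S.w p := by
      ring
    rw [e, abs_mul, abs_mul, abs_sgm, mul_one, abs_of_pos hwp]
    have h1 := mul_le_mul_of_nonneg_right (hD (P.cix k0 (p * S.mo p))) hwp.le
    calc |t (P.cix k0 (p * S.mo p)) - t' (P.cix k0 (p * S.mo p))| * S.w p ≤ D * S.w p := h1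
      _ = 2 * S.w p / 2 * D := by ring
  · rw [if_neg hc, if_neg hc, if_neg hc]
    by_cases ho : P.Ord k0 p
    · rw [if_pos ho, if_pos ho, if_pos ho]
      have hv := h0.v_pos (Nat.log 2 p)
      have hv2 := h0.v_le_phi hp.two_le
      have hphi : 0 ≤ P.phi p := (h0.phi_pos (by exact_mod_cast hp.one_lt)).le
      split_ifs
      · have e : (P.sg k0 p + t (P.cix k0 p) / 4) * P.v (Nat.log 2 p) / 4 -
            (P.sg k0 p + t' (P.cix k0 p) / 4) * P.v (Nat.log 2 p) / 4 =
            (t (P.cix k0 p) - t' (P.cix k0 p)) * (P.v (Nat.log 2 p) / 16) := by ring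
        rw [e, abs_mul, abs_of_pos (by positivity : 0 < P.v (Nat.log 2 p) / 16)]
        have h1 := mul_le_mul_of_nonneg_right (hD (P.cix k0 p))
          (by positivity : 0 ≤ P.v (Nat.log 2 p) / 16)
        have h3 : P.v (Nat.log 2 p) / 16 ≤ P.phi p / 2 := by linarith
        have h4 := mul_le_mul_of_nonneg_left h3 hD0
        calc _ ≤ D * (P.v (Nat.log 2 p) / 16) := h1
          _ ≤ D * (P.phi p / 2) := h4
          _ = P.phi p / 2 * D := by ring
      · rw [sub_self, abs_zero]
        positivity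
    · rw [if_neg ho, if_neg ho, if_neg ho]
      simp

end

theorem majorant (P : Par) (h0 : PhiFacts P) (hw : WFacts P) : Majorant P := by
  intro k0 hk0 S t t' ht ht' D hD n hn
  have hD0 : 0 ≤ D := le_trans (abs_nonneg _) (hD (0, 0))
  have hpr : ∀ p ∈ n.primeFactorsList, p.Prime := fun p hp => Nat.prime_of_mem_primeFactorsList hp
  obtain ⟨i0, i1, i2, i3⟩ := list_bound (S.fp t) (S.fp t') S.wt D hD0 n.primeFactorsList
    (fun p _ => hw.wt_nonneg S hk0 p)
    (fun p hp => fp_bound P h0 hw S hk0 t ht (hpr p hp))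
    (fun p hp => fp_bound P h0 hw S hk0 t' ht' (hpr p hp))
    (fun p hp => fp_lip P h0 hw S hk0 t t' D hD (hpr p hp))
  unfold Par.Sel.ft Par.Sel.WW
  set Q := (n.primeFactorsList.map S.wt).prod
  set m := n.primeFactorsList.length
  have hm : (m : ℝ) ≤ 2 ^ m := by exact_mod_cast (Nat.lt_two_pow_self (n := m)).le
  have hm1 : (1 : ℝ) ≤ 2 ^ m := one_le_pow₀ (by norm_num)
  constructor
  · exact le_trans i1 (div_le_self i0 hm1)
  · refine le_trans i3 ?_
    apply mul_le_mul_of_nonneg_right _ hD0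
    rw [← mul_div_assoc, div_le_iff₀ (by positivity)]
    calc (m : ℝ) * Q ≤ 2 ^ m * Q := mul_le_mul_of_nonneg_right hm i0
      _ = Q * 2 ^ m := by ring

/-! ### values at own integers -/

section
variable (P : Par) (h0 : PhiFacts P) (hw : WFacts P) {k0 : ℕ} (S : P.Sel k0)
include h0 hw

/-- values of `fp` at ordinary primes -/
theorem fp_ord (t : ℕ × ℕ → ℝ) (ht : ∀ i, |t i| ≤ 1) {p : ℕ} (ho : P.Ord k0 p) :
    S.fp t p = P.sg k0 p * |S.fp t p| ∧ 3/16 * P.v (Nat.log 2 p) ≤ |S.fp t p| ∧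
      |S.fp t p| ≤ 5/3 * (3/16 * P.v (Nat.log 2 p)) := by
  have hc : ¬ S.ctrl p := fun hc => (hw.ctrl_prime S hc).2.2.1 ho
  have hv := h0.v_pos (Nat.log 2 p)
  have hform : ∃ θ : ℝ, |θ| ≤ 1/4 ∧ S.fp t p = (P.sg k0 p + θ) * P.v (Nat.log 2 p) / 4 := by
    unfold Par.Sel.fp
    rw [if_neg hc, if_pos ho]
    refine ⟨_, ?_, rfl⟩
    split_ifs
    · rw [abs_div, abs_of_pos (by norm_num : (0 : ℝ) < 4)]
      have := ht (P.cix k0 p)
      linarith
    · norm_num
  obtain ⟨θ, hθ, hfp⟩ := hform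
  rw [abs_le] at hθ
  have hsg : P.sg k0 p = 1 ∨ P.sg k0 p = -1 := by
    have := abs_sg P k0 p
    exact (abs_eq (by norm_num)).mp this
  rcases hsg with h | h
  · have hpos : 0 < S.fp t p := by
      rw [hfp, h]
      have : 0 < 1 + θ := by linarith
      positivity
    rw [abs_of_pos hpos, h, one_mul]
    refine ⟨rfl, ?_, ?_⟩
    · rw [hfp, h]; nlinarith
    · rw [hfp, h]; nlinarith
  · have hneg : S.fp t p < 0 := by
      rw [hfp, h]
      have h1 : -1 + θ < 0 := by linarith
      have := mul_neg_of_neg_of_pos h1 hv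
      linarith
    rw [abs_of_neg hneg, h]
    refine ⟨by ring, ?_, ?_⟩
    · rw [hfp, h]; nlinarith
    · rw [hfp, h]; nlinarith

theorem fp_ord_lip (t t' : ℕ × ℕ → ℝ) (D : ℝ) (hD : ∀ i, |t i - t' i| ≤ D) {p : ℕ}
    (ho : P.Ord k0 p) :
    |S.fp t p - S.fp t' p| ≤ 5/3 * (3/16 * P.v (Nat.log 2 p)) * D := by
  have hD0 : 0 ≤ D := le_trans (abs_nonneg _) (hD (0, 0))
  have hc : ¬ S.ctrl p := fun hc => (hw.ctrl_prime S hc).2.2.1 ho
  have hv := h0.v_pos (Nat.log 2 p)
  unfold Par.Sel.fp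
  rw [if_neg hc, if_pos ho, if_neg hc, if_pos ho]
  split_ifs
  · have e : (P.sg k0 p + t (P.cix k0 p) / 4) * P.v (Nat.log 2 p) / 4 -
        (P.sg k0 p + t' (P.cix k0 p) / 4) * P.v (Nat.log 2 p) / 4 =
        (t (P.cix k0 p) - t' (P.cix k0 p)) * (P.v (Nat.log 2 p) / 16) := by ring
    rw [e, abs_mul, abs_of_pos (by positivity : 0 < P.v (Nat.log 2 p) / 16)]
    have h1 := mul_le_mul_of_nonneg_right (hD (P.cix k0 p))
      (by positivity : 0 ≤ P.v (Nat.log 2 p) / 16)
    have h4 : 0 ≤ D * P.v (Nat.log 2 p) := by positivity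
    linarith
  · rw [sub_self, abs_zero]
    positivity

end

theorem prod_sign (a g : ℕ → ℝ) (l : List ℕ) (h : ∀ p ∈ l, a p = g p * |a p|) :
    (l.map a).prod = (l.map g).prod * |(l.map a).prod| := by
  induction l with
  | nil => simp
  | cons p l ih =>
    have h1 := ih (fun q hq => h q (List.mem_cons_of_mem _ hq))
    have h2 := h p List.mem_cons_self
    rw [List.map_cons, List.prod_cons, List.map_cons, List.prod_cons, abs_mul]
    calc a p * (l.map a).prod = (g p * |a p|) * ((l.map g).prod * |(l.map a).prod|) := by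
          rw [← h1, ← h2]
      _ = g p * (l.map g).prod * (|a p| * |(l.map a).prod|) := by ring

theorem prod_low (a u : ℕ → ℝ) (l : List ℕ) (hu : ∀ p ∈ l, 0 ≤ u p) (h : ∀ p ∈ l, u p ≤ |a p|) :
    0 ≤ (l.map u).prod ∧ (l.map u).prod ≤ |(l.map a).prod| := by
  induction l with
  | nil => simp
  | cons p l ih =>
    obtain ⟨i0, i1⟩ := ih (fun q hq => hu q (List.mem_cons_of_mem _ hq))
      (fun q hq => h q (List.mem_cons_of_mem _ hq))
    rw [List.map_cons, List.prod_cons, List.map_cons, List.prod_cons, abs_mul]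
    have h1 := hu p List.mem_cons_self
    have h2 := h p List.mem_cons_self
    exact ⟨mul_nonneg h1 i0, mul_le_mul h2 i1 i0 (abs_nonneg _)⟩

theorem ftOwn (P : Par) (h0 : PhiFacts P) (hw : WFacts P) (hd : CdFacts P) : FtOwn P := by
  have hη := P.η0
  set N : ℕ := ⌈1 / P.η⌉₊ with hN
  refine ⟨((N : ℝ) + 1) * (5/3) ^ N, by positivity, ?_⟩
  intro k0 hk0 S x hx t ht
  obtain ⟨k, hk, hcl⟩ := S.clean x hx
  obtain ⟨hCd, hOrd, -⟩ := hcl
  have hq : x.1.Prime := hCd.1
  have hm : 0 < x.2 := hCd.2.1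
  have hctrl : S.ctrl x.1 := ⟨x.2, hx⟩
  obtain ⟨-, -, -, -, huniq⟩ := hw.ctrl_prime S hctrl
  have hmo : S.mo x.1 = x.2 := (huniq x.2 hx).symm
  have hwpos := hw.w_pos S (by omega) hctrl
  have hlen : (x.2.primeFactorsList.length : ℝ) ≤ 1 / P.η := (hd.cof (by omega) hCd).2
  have hlenN : x.2.primeFactorsList.length ≤ N := by
    have : (x.2.primeFactorsList.length : ℝ) ≤ N := le_trans hlen (Nat.le_ceil _)
    exact_mod_cast this
  have hordl : ∀ p ∈ x.2.primeFactorsList, P.Ord k0 p := fun p hp =>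
    hOrd p (Nat.prime_of_mem_primeFactorsList hp) (Nat.dvd_of_mem_primeFactorsList hp)
  have hlo : ∀ m, P.lo m = (m.primeFactorsList.map (fun p => 3/16 * P.v (Nat.log 2 p))).prod :=
    fun m => rfl
  have hwdef : S.w x.1 * P.lo x.2 = P.Wk (Nat.log 2 (x.1 * x.2)) := by
    unfold Par.Sel.w
    rw [hmo]
    have := (h0.lo_pos x.2).ne'
    field_simp
  have hu : ∀ p ∈ x.2.primeFactorsList, 0 ≤ 3/16 * P.v (Nat.log 2 p) := fun p _ => by
    have := h0.v_pos (Nat.log 2 p)
    positivity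
  have hft : ∀ t : ℕ × ℕ → ℝ, S.ft t (x.1 * x.2) = S.fp t x.1 * S.ft t x.2 := by
    intro t
    unfold Par.Sel.ft
    rw [(List.Perm.map (S.fp t) (Nat.perm_primeFactorsList_mul hq.ne_zero hm.ne')).prod_eq,
      Nat.primeFactorsList_prime hq]
    simp
  have hfpq : S.fp t x.1 = t (P.cix k0 (x.1 * x.2)) * P.sgm k0 x.2 * S.w x.1 := by
    unfold Par.Sel.fp
    rw [if_pos hctrl, hmo]
  have hsign : S.ft t x.2 = P.sgm k0 x.2 * |S.ft t x.2| := by
    unfold Par.Sel.ft Par.sgm
    exact prod_sign (S.fp t) (P.sg k0) _ (fun p hp => (fp_ord P h0 hw S t ht (hordl p hp)).1)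
  have hlow : P.lo x.2 ≤ |S.ft t x.2| := by
    unfold Par.Sel.ft
    rw [hlo]
    exact (prod_low (S.fp t) (fun p => 3/16 * P.v (Nat.log 2 p)) _ hu
      (fun p hp => (fp_ord P h0 hw S t ht (hordl p hp)).2.1)).2
  refine ⟨?_, ?_, ?_⟩
  · rw [hft, hfpq]
    have hs := sgm_sq P k0 x.2
    calc t (P.cix k0 (x.1 * x.2)) * P.sgm k0 x.2 * S.w x.1 * S.ft t x.2
        = t (P.cix k0 (x.1 * x.2)) * P.sgm k0 x.2 * S.w x.1 * (P.sgm k0 x.2 * |S.ft t x.2|) := by
          rw [← hsign]
      _ = (P.sgm k0 x.2 * P.sgm k0 x.2) * (t (P.cix k0 (x.1 * x.2)) * (S.w x.1 * |S.ft t x.2|)) := by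
          ring
      _ = _ := by rw [hs, one_mul]
  · rw [← hwdef]
    exact mul_le_mul_of_nonneg_left hlow hwpos.le
  · intro t' ht' D hD
    have hD0 : 0 ≤ D := le_trans (abs_nonneg _) (hD (0, 0))
    rw [← mul_sub, abs_mul, abs_of_pos hwpos]
    have h1 : |(|S.ft t x.2| - |S.ft t' x.2|)| ≤ |S.ft t x.2 - S.ft t' x.2| :=
      abs_abs_sub_abs_le_abs_sub _ _
    have h2 := (list_lip (S.fp t) (S.fp t') (fun p => 3/16 * P.v (Nat.log 2 p)) D hD0
      x.2.primeFactorsList hu
      (fun p hp => (fp_ord P h0 hw S t ht (hordl p hp)).2.2)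
      (fun p hp => (fp_ord P h0 hw S t' ht' (hordl p hp)).2.2)
      (fun p hp => fp_ord_lip P h0 hw S t t' D hD (hordl p hp))).2.2.2
    rw [← hlo] at h2
    have hlopos := h0.lo_pos x.2
    have h3 : (x.2.primeFactorsList.length : ℝ) * ((5/3) ^ x.2.primeFactorsList.length * P.lo x.2) * D ≤
        ((N : ℝ) + 1) * ((5/3) ^ N * P.lo x.2) * D := by
      apply mul_le_mul_of_nonneg_right _ hD0
      apply mul_le_mul
      · have : (x.2.primeFactorsList.length : ℝ) ≤ N := by exact_mod_cast hlenN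
        linarith
      · exact mul_le_mul_of_nonneg_right (pow_le_pow_right₀ (by norm_num) hlenN) hlopos.le
      · positivity
      · positivity
    calc S.w x.1 * |(|S.ft t x.2| - |S.ft t' x.2|)|
        ≤ S.w x.1 * (((N : ℝ) + 1) * ((5/3) ^ N * P.lo x.2) * D) :=
          mul_le_mul_of_nonneg_left (le_trans h1 (le_trans h2 h3)) hwpos.le
      _ = ((N : ℝ) + 1) * (5/3) ^ N * (S.w x.1 * P.lo x.2) * D := by ring
      _ = _ := by rw [hwdef]

/-! ### the fixed point lemma -/

theorem fixedPoint : FixedPoint := by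
  intro ι B R G ε K hG hε hK hεK hB hR hBL hRL
  have hε1 : ε ≤ 1/2 := by nlinarith
  set T : (ι → ℝ) → ι → ℝ := fun t i => - R t i / B t i with hT
  have hBpos : ∀ t : ι → ℝ, (∀ i, |t i| ≤ 1) → ∀ i, 0 < B t i := fun t ht i =>
    lt_of_lt_of_le (hG i) (hB t ht i)
  have hT1 : ∀ t : ι → ℝ, (∀ i, |t i| ≤ 1) → ∀ i, |T t i| ≤ 1 := by
    intro t ht i
    simp only [hT]
    rw [abs_div, abs_neg, abs_of_pos (hBpos t ht i), div_le_one (hBpos t ht i)]
    have h1 := hR t ht i
    have h2 := hB t ht i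
    nlinarith [hG i]
  have hTL : ∀ t t' : ι → ℝ, (∀ i, |t i| ≤ 1) → (∀ i, |t' i| ≤ 1) → ∀ D : ℝ,
      (∀ i, |t i - t' i| ≤ D) → ∀ i, |T t i - T t' i| ≤ D / 2 := by
    intro t t' ht ht' D hD i
    have hD0 : 0 ≤ D := le_trans (abs_nonneg _) (hD i)
    have b1 := hBpos t ht i
    have b2 := hBpos t' ht' i
    have g1 := hB t ht i
    have g2 := hB t' ht' i
    have e : T t i - T t' i = (R t' i - R t i) / B t i + (R t' i / B t' i) * ((B t i - B t' i) / B t i) := by
      simp only [hT]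
      field_simp
      ring
    rw [e]
    refine le_trans (abs_add_le _ _) ?_
    have h1 : |(R t' i - R t i) / B t i| ≤ ε * D := by
      rw [abs_div, abs_of_pos b1, div_le_iff₀ b1, abs_sub_comm]
      calc |R t i - R t' i| ≤ ε * G i * D := hRL t t' ht ht' D hD i
        _ ≤ ε * D * B t i := by
          have := mul_le_mul_of_nonneg_left g1 (by positivity : 0 ≤ ε * D)
          linarith
    have h2 : |R t' i / B t' i| ≤ ε := by
      rw [abs_div, abs_of_pos b2, div_le_iff₀ b2]
      exact le_trans (hR t' ht' i) (mul_le_mul_of_nonneg_left g2 hε)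
    have h3 : |(B t i - B t' i) / B t i| ≤ K * D := by
      rw [abs_div, abs_of_pos b1, div_le_iff₀ b1]
      calc |B t i - B t' i| ≤ K * G i * D := hBL t t' ht ht' D hD i
        _ ≤ K * D * B t i := by
          have := mul_le_mul_of_nonneg_left g1 (by positivity : 0 ≤ K * D)
          linarith
    have h4 : |R t' i / B t' i * ((B t i - B t' i) / B t i)| ≤ ε * (K * D) := by
      rw [abs_mul]
      exact mul_le_mul h2 h3 (abs_nonneg _) hε
    have h5 : ε * (1 + K) * D ≤ 1/2 * D := mul_le_mul_of_nonneg_right hεK hD0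
    calc _ ≤ ε * D + ε * (K * D) := add_le_add h1 h4
      _ = ε * (1 + K) * D := by ring
      _ ≤ D / 2 := by linarith
  set f : ℕ → ι → ℝ := fun n => Nat.rec (fun _ => (0 : ℝ)) (fun _ t => T t) n with hf
  have hf0 : f 0 = fun _ => 0 := rfl
  have hfs : ∀ n, f (n + 1) = T (f n) := fun n => rfl
  have hf1 : ∀ n i, |f n i| ≤ 1 := by
    intro n
    induction n with
    | zero => intro i; rw [hf0]; simp
    | succ n ih => rw [hfs]; exact hT1 _ ih
  have hd : ∀ n i, |f n i - f (n + 1) i| ≤ 2 * (1/2) ^ n := by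
    intro n
    induction n with
    | zero =>
      intro i
      have h1 := hf1 0 i
      have h2 := hf1 1 i
      calc |f 0 i - f 1 i| ≤ |f 0 i| + |f 1 i| := abs_sub _ _
        _ ≤ 2 * (1/2) ^ 0 := by norm_num; linarith
    | succ n ih =>
      intro i
      rw [hfs (n + 1), hfs n]
      have := hTL (f n) (T (f n)) (hf1 n) (hT1 _ (hf1 n)) (2 * (1/2) ^ n)
        (fun i => by rw [← hfs n]; exact ih i) i
      calc |T (f n) i - T (T (f n)) i| ≤ 2 * (1/2) ^ n / 2 := this
        _ = 2 * (1/2) ^ (n + 1) := by rw [pow_succ]; ring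
  have hdist : ∀ i n, dist (f n i) (f (n + 1) i) ≤ 2 * (1/2) ^ n := fun i n => by
    rw [Real.dist_eq]; exact hd n i
  have hcs : ∀ i, CauchySeq (fun n => f n i) := fun i =>
    cauchySeq_of_le_geometric (1/2) 2 (by norm_num) (hdist i)
  choose t ht using fun i => cauchySeq_tendsto_of_complete (hcs i)
  have ht1 : ∀ i, |t i| ≤ 1 := fun i =>
    le_of_tendsto ((ht i).abs) (Filter.Eventually.of_forall (fun n => hf1 n i))
  have hconv : ∀ n i, |f n i - t i| ≤ 4 * (1/2) ^ n := by
    intro n i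
    have := dist_le_of_le_geometric_of_tendsto (1/2) 2 (by norm_num) (hdist i) (ht i) n
    rw [Real.dist_eq] at this
    calc |f n i - t i| ≤ 2 * (1/2) ^ n / (1 - 1/2) := this
      _ = 4 * (1/2) ^ n := by ring
  refine ⟨t, ht1, ?_⟩
  intro i
  have hfix : T t i = t i := by
    have h1 : Filter.Tendsto (fun n => f (n + 1) i) Filter.atTop (nhds (T t i)) := by
      rw [tendsto_iff_dist_tendsto_zero]
      have hlim : Filter.Tendsto (fun n : ℕ => 4 * (1/2 : ℝ) ^ n / 2) Filter.atTop (nhds 0) := by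
        have := (tendsto_pow_atTop_nhds_zero_of_lt_one (by norm_num : (0 : ℝ) ≤ 1/2)
          (by norm_num : (1/2 : ℝ) < 1)).const_mul 4
        have := this.div_const 2
        simpa using this
      refine squeeze_zero (fun n => dist_nonneg) (fun n => ?_) hlim
      rw [Real.dist_eq, hfs]
      exact hTL (f n) t (hf1 n) ht1 _ (fun i => hconv n i) i
    have h2 : Filter.Tendsto (fun n => f (n + 1) i) Filter.atTop (nhds (t i)) :=
      (ht i).comp (Filter.tendsto_add_atTop_nat 1)
    exact tendsto_nhds_unique h1 h2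
  have hb := hBpos t ht1 i
  have : t i * B t i = - R t i := by
    rw [← hfix]
    simp only [hT]
    field_simp
  linarith

end Pool.Agent.Helper55.QRH
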