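import Pool.Agent.Helper10.QRH.StC

/-!
# Project QRH (MP_768c9c_nt), module C6: size of the weights
-/

set_option autoImplicit false
open scoped Classical
open Filter Topology

namespace Pool.Agent.Helper55.QRH

open Pool.Agent.Helper10.QRH

theorem list_le (f g : ℕ → ℝ) (C : ℝ) (hC : 0 ≤ C) (l : List ℕ) (hf : ∀ p ∈ l, 0 ≤ f p)
    (hg : ∀ p ∈ l, 0 ≤ g p) (h : ∀ p ∈ l, f p ≤ C * g p) :
    0 ≤ (l.map f).prod ∧ 0 ≤ (l.map g).prod ∧ (l.map f).prod ≤ C ^ l.length * (l.map g).prod := by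
  induction l with
  | nil => simp
  | cons p l ih =>
    obtain ⟨i0, i1, i2⟩ := ih (fun q hq => hf q (List.mem_cons_of_mem _ hq))
      (fun q hq => hg q (List.mem_cons_of_mem _ hq)) (fun q hq => h q (List.mem_cons_of_mem _ hq))
    have w0 := hf p List.mem_cons_self
    have w1 := hg p List.mem_cons_self
    have w2 := h p List.mem_cons_self
    simp only [List.map_cons, List.prod_cons, List.length_cons]
    refine ⟨mul_nonneg w0 i0, mul_nonneg w1 i1, ?_⟩
    calc f p * (l.map f).prod ≤ (C * g p) * (C ^ l.length * (l.map g).prod) :=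
          mul_le_mul w2 i2 i0 (by positivity)
      _ = C ^ (l.length + 1) * (g p * (l.map g).prod) := by rw [pow_succ]; ring

theorem prod_rpow (a : ℝ) (l : List ℕ) :
    (l.map (fun p : ℕ => (p : ℝ) ^ a)).prod = ((l.prod : ℕ) : ℝ) ^ a := by
  induction l with
  | nil => simp
  | cons p l ih =>
    rw [List.map_cons, List.prod_cons, List.prod_cons, ih, Nat.cast_mul,
      Real.mul_rpow (Nat.cast_nonneg _) (Nat.cast_nonneg _)]

/-- exponentials beat polynomials -/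
theorem exp_beats (g : ℝ) (hg : 0 < g) (N : ℕ) :
    ∃ K : ℕ, ∀ k : ℕ, K ≤ k → (128 / 3 * (k : ℝ) ^ 2) ^ N ≤ (2 : ℝ) ^ (g * k) := by
  have hr : (1 : ℝ) < (2 : ℝ) ^ g := Real.one_lt_rpow (by norm_num) hg
  have h := (tendsto_pow_const_div_const_pow_of_one_lt (2 * N) hr).const_mul ((128 / 3 : ℝ) ^ N)
  rw [mul_zero] at h
  have h2 := h.eventually (gt_mem_nhds (by norm_num : (0 : ℝ) < 1))
  obtain ⟨K, hK⟩ := eventually_atTop.mp h2
  refine ⟨K, fun k hk => ?_⟩
  have h3 := hK k hk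
  have hpos : 0 < ((2 : ℝ) ^ g) ^ k := by positivity
  rw [← mul_div_assoc, div_lt_one hpos] at h3
  rw [Real.rpow_mul (by norm_num), Real.rpow_natCast, mul_pow, ← pow_mul]
  exact h3.le

section
variable (P : Par) (h0 : PhiFacts P) (hw : WFacts P) (hd : CdFacts P)
include h0 hw hd

theorem w_bound (N : ℕ) (hN : 1 / P.η ≤ N) (k0 : ℕ) (S : P.Sel k0)
    (hk0 : 4 ≤ k0)
    (hsz : ∀ k, k0 ≤ k → P.e' k ≤ P.e k)
    (hexp : ∀ k, k0 ≤ k → (128 / 3 * (k : ℝ) ^ 2) ^ N ≤ (2 : ℝ) ^ (P.g * k))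
    {p : ℕ} (hc : S.ctrl p) : 2 * S.w p ≤ (p : ℝ) ^ (P.s - 1 + 4 * P.g) := by
  obtain ⟨hp, -, -, hmem, -⟩ := hw.ctrl_prime S hc
  obtain ⟨k, hk, hcl⟩ := S.clean _ hmem
  have hCd := hcl.1
  have hm := hCd.2.1
  have hlow := hCd.2.2.1
  have hup := hCd.2.2.2.1
  have hqlow := hCd.2.2.2.2.1
  have hblock := hd.block hCd
  simp only at hblock hup hlow hqlow hm
  set m := S.mo p with hmdef
  obtain ⟨hν0, hν1, hνκ, hνη, hνφ, hdd, hss, hg0, hgν, -⟩ := h0.small
  have hkpos : (1 : ℝ) ≤ (k : ℝ) := by exact_mod_cast (by omega : 1 ≤ k)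
  have hk4 : (4 : ℝ) ≤ (k : ℝ) := by exact_mod_cast (by omega : 4 ≤ k)
  have hs1 : P.s - 1 < 0 := by rw [hss]; linarith
  have hpr : (0 : ℝ) < (p : ℝ) := by exact_mod_cast hp.pos
  have hmr : (0 : ℝ) < (m : ℝ) := by exact_mod_cast hm
  set X : ℝ := (2 : ℝ) ^ ((P.s - 1) * k) with hX
  set Y : ℝ := (2 : ℝ) ^ (P.g * k) with hY
  have hXpos : 0 < X := Real.rpow_pos_of_pos (by norm_num) _
  have hYpos : 0 < Y := Real.rpow_pos_of_pos (by norm_num) _
  -- bound for Wk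
  have ha : P.Wk k ≤ 1 / 2000 * (X * Y) := by
    unfold Par.Wk
    have hns : (0 : ℝ) < (P.nsel k : ℝ) := by exact_mod_cast (h0.nsel_pos k)
    rw [div_le_iff₀ (by positivity)]
    have hnsel : (2 : ℝ) ^ (P.e k - P.e' k) * (2 : ℝ) ^ (-(P.g * k)) ≤ (P.nsel k : ℝ) :=
      Nat.le_ceil _
    have hYinv : (2 : ℝ) ^ (-(P.g * k)) = Y⁻¹ := by rw [Real.rpow_neg (by norm_num)]
    have he : (2 : ℝ) ^ P.e' k * (2 : ℝ) ^ (P.e k - P.e' k) = (2 : ℝ) ^ P.e k := by
      rw [← pow_add]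
      congr 1
      have := hsz k hk
      omega
    have h1 : (2 : ℝ) ^ P.e k * Y⁻¹ ≤ 2 ^ P.e' k * (P.nsel k : ℝ) := by
      rw [← he, ← hYinv, mul_assoc]
      exact mul_le_mul_of_nonneg_left hnsel (by positivity)
    have h2 : P.Gk k ≤ 1/2000 * 2 ^ P.e k * X := by
      unfold Par.Gk
      exact div_le_self (by positivity) (one_le_pow₀ hkpos)
    refine le_trans h2 ?_
    calc 1/2000 * 2 ^ P.e k * X = 1/2000 * (X * Y) * ((2 : ℝ) ^ P.e k * Y⁻¹) := by
          field_simp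
      _ ≤ _ := mul_le_mul_of_nonneg_left h1 (by positivity)
  -- bound for lo
  have hb : (m : ℝ) ^ (P.s - 1) ≤ Y * P.lo m := by
    have hlen : (m.primeFactorsList.length : ℝ) ≤ 1 / P.η := (hd.cof (by omega) hCd).2
    have hlenN : m.primeFactorsList.length ≤ N := by
      have : (m.primeFactorsList.length : ℝ) ≤ N := le_trans hlen hN
      exact_mod_cast this
    have hlist := list_le (fun q : ℕ => (q : ℝ) ^ (P.s - 1)) (fun q => 3/16 * P.v (Nat.log 2 q))
      (128 / 3 * (k : ℝ) ^ 2) (by positivity) m.primeFactorsList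
      (fun q _ => Real.rpow_nonneg (Nat.cast_nonneg _) _)
      (fun q _ => by have := h0.v_pos (Nat.log 2 q); positivity)
      (fun q hq => ?_)
    · obtain ⟨-, i1, i2⟩ := hlist
      rw [prod_rpow, Nat.prod_primeFactorsList hm.ne'] at i2
      refine le_trans i2 ?_
      have hC1 : (1 : ℝ) ≤ 128 / 3 * (k : ℝ) ^ 2 := by nlinarith
      unfold Par.lo
      apply mul_le_mul_of_nonneg_right _ i1
      exact le_trans (pow_le_pow_right₀ hC1 hlenN) (hexp k hk)
    · have hqp : q.Prime := Nat.prime_of_mem_primeFactorsList hq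
      have hqm : q ∣ m := Nat.dvd_of_mem_primeFactorsList hq
      have hqr : (1 : ℝ) < (q : ℝ) := by exact_mod_cast hqp.one_lt
      have hqle : q < 2 ^ (k + 1) := by
        have h1 : q ≤ m := Nat.le_of_dvd hm hqm
        have h2 : m ≤ p * m := Nat.le_mul_of_pos_left m hp.pos
        omega
      have hlog : Real.log q ≤ k := by
        have h1 : Real.log q ≤ Real.log ((2 : ℝ) ^ (k + 1)) :=
          Real.log_le_log (by linarith) (by exact_mod_cast hqle.le)
        rw [Real.log_pow] at h1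
        push_cast at h1
        have h2 := Real.log_two_lt_d9
        nlinarith
      have hlogpos : 0 < Real.log q := Real.log_pos hqr
      have h8 := h0.phi_le_v hqp.two_le
      have hphi : (q : ℝ) ^ (P.s - 1) = P.phi q * (Real.log q) ^ 2 := by
        unfold Par.phi
        field_simp
      show (q : ℝ) ^ (P.s - 1) ≤ 128 / 3 * (k : ℝ) ^ 2 * (3/16 * P.v (Nat.log 2 q))
      rw [hphi]
      have hv := h0.v_pos (Nat.log 2 q)
      calc P.phi q * (Real.log q) ^ 2 ≤ (8 * P.v (Nat.log 2 q)) * (k : ℝ) ^ 2 :=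
            mul_le_mul h8 (pow_le_pow_left₀ hlogpos.le hlog 2) (by positivity) (by positivity)
        _ = 128 / 3 * (k : ℝ) ^ 2 * (3/16 * P.v (Nat.log 2 q)) := by ring
  -- bound for the power of p
  have hcc : Y * Y ≤ (p : ℝ) ^ (4 * P.g) := by
    have h1 : (2 : ℝ) ^ ((1/2 : ℝ) * k) ≤ p := by
      refine le_trans (Real.rpow_le_rpow_of_exponent_le (by norm_num) ?_) hqlow
      have := P.κ0
      nlinarith
    calc Y * Y = ((2 : ℝ) ^ ((1/2 : ℝ) * k)) ^ (4 * P.g) := by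
          rw [hY, ← Real.rpow_add (by norm_num), ← Real.rpow_mul (by norm_num)]
          congr 1
          ring
      _ ≤ (p : ℝ) ^ (4 * P.g) := Real.rpow_le_rpow (by positivity) h1 (by positivity)
  have hdd : 1/2 * X ≤ (p : ℝ) ^ (P.s - 1) * (m : ℝ) ^ (P.s - 1) := by
    rw [← Real.mul_rpow hpr.le hmr.le]
    have h1 : (p : ℝ) * m ≤ (2 : ℝ) ^ ((k : ℝ) + 1) := by
      have h2 : ((p * m : ℕ) : ℝ) ≤ ((2 ^ (k + 1) : ℕ) : ℝ) := by exact_mod_cast hup.le
      push_cast at h2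
      have h5 : (2 : ℝ) ^ ((k : ℝ) + 1) = 2 ^ (k + 1) := by
        rw [← Real.rpow_natCast]
        push_cast
        rfl
      rw [h5]
      exact h2
    have h3 : ((2 : ℝ) ^ ((k : ℝ) + 1)) ^ (P.s - 1) ≤ ((p : ℝ) * m) ^ (P.s - 1) :=
      Real.rpow_le_rpow_of_nonpos (by positivity) h1 hs1.le
    refine le_trans ?_ h3
    rw [← Real.rpow_mul (by norm_num)]
    have h4 : ((k : ℝ) + 1) * (P.s - 1) = (P.s - 1) * k + (P.s - 1) := by ring
    rw [h4, Real.rpow_add (by norm_num), mul_comm (1/2 : ℝ) X]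
    apply mul_le_mul_of_nonneg_left _ hXpos.le
    have : (2 : ℝ) ^ (-1 : ℝ) ≤ (2 : ℝ) ^ (P.s - 1) :=
      Real.rpow_le_rpow_of_exponent_le (by norm_num) (by rw [hss]; linarith)
    rw [Real.rpow_neg_one] at this
    linarith
  have hlo := h0.lo_pos m
  unfold Par.Sel.w
  rw [← hmdef, hblock, ← mul_div_assoc, div_le_iff₀ hlo, Real.rpow_add hpr]
  have hpa : 0 < (p : ℝ) ^ (P.s - 1) := Real.rpow_pos_of_pos hpr _
  calc 2 * P.Wk k ≤ 2 * (1 / 2000 * (X * Y)) := by linarith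
    _ ≤ Y * (1/2 * X) := by nlinarith [mul_pos hXpos hYpos]
    _ ≤ Y * ((p : ℝ) ^ (P.s - 1) * (m : ℝ) ^ (P.s - 1)) := mul_le_mul_of_nonneg_left hdd hYpos.le
    _ ≤ Y * ((p : ℝ) ^ (P.s - 1) * (Y * P.lo m)) :=
        mul_le_mul_of_nonneg_left (mul_le_mul_of_nonneg_left hb hpa.le) hYpos.le
    _ = (p : ℝ) ^ (P.s - 1) * (Y * Y) * P.lo m := by ring
    _ ≤ (p : ℝ) ^ (P.s - 1) * (p : ℝ) ^ (4 * P.g) * P.lo m :=
        mul_le_mul_of_nonneg_right (mul_le_mul_of_nonneg_left hcc hpa.le) hlo.le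

end

theorem wtSize (P : Par) (h0 : PhiFacts P) (hw : WFacts P) (hd : CdFacts P) (h1 : SizeFacts P) :
    WtSize P := by
  obtain ⟨hν0, hν1, hνκ, hνη, hνφ, hdd, hss, hg0, hgν, -⟩ := h0.small
  have hη := P.η0
  obtain ⟨K1, hK1⟩ := h1
  obtain ⟨K2, hK2⟩ := exp_beats P.g hg0 ⌈1 / P.η⌉₊
  refine ⟨max (max K1 K2) (max 4 ⌈2 / P.η⌉₊), ?_⟩
  intro k0 hk0 _ S
  have hk1 : K1 ≤ k0 := le_trans (le_trans (le_max_left _ _) (le_max_left _ _)) hk0
  have hk2 : K2 ≤ k0 := le_trans (le_trans (le_max_right _ _) (le_max_left _ _)) hk0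
  have hk3 : 4 ≤ k0 := le_trans (le_trans (le_max_left _ _) (le_max_right _ _)) hk0
  have hk4 : ⌈2 / P.η⌉₊ ≤ k0 := le_trans (le_trans (le_max_right _ _) (le_max_right _ _)) hk0
  have hηk : 2 ≤ P.η * k0 := by
    have h2 : 2 / P.η ≤ k0 := le_trans (Nat.le_ceil _) (by exact_mod_cast hk4)
    rw [div_le_iff₀ hη] at h2
    linarith
  have hfl : 2 ≤ ⌊P.η * k0⌋₊ := Nat.le_floor (by exact_mod_cast hηk)
  have hP1 : 4 ≤ P.P1 k0 := by
    unfold Par.P1
    calc 4 = 2 ^ 2 := by norm_num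
      _ ≤ 2 ^ ⌊P.η * k0⌋₊ := Nat.pow_le_pow_right (by norm_num) hfl
  have hwt : ∀ p : ℕ, S.wt p ≤ (p : ℝ) ^ (P.s - 1 + 4 * P.g) := by
    intro p
    unfold Par.Sel.wt
    by_cases hc : S.ctrl p
    · rw [if_pos hc]
      exact w_bound P h0 hw hd _ (Nat.le_ceil _) k0 S hk3
        (fun k hk => by have := (hK1 k (le_trans hk1 hk)).1; omega)
        (fun k hk => hK2 k (le_trans hk2 hk)) hc
    · rw [if_neg hc]
      by_cases ho : P.Ord k0 p
      · rw [if_pos ho]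
        have hp4 : 4 ≤ p := le_trans hP1 ho.2.1
        have hp3 : (3 : ℝ) ≤ (p : ℝ) := by exact_mod_cast (by omega : 3 ≤ p)
        refine le_trans (h0.phi_le hp3) ?_
        apply Real.rpow_le_rpow_of_exponent_le (by linarith)
        linarith
      · rw [if_neg ho]
        exact Real.rpow_nonneg (Nat.cast_nonneg _) _
  refine ⟨hwt, ?_, ?_⟩
  · intro p hp
    unfold Par.Sel.wt
    have ho : ¬ P.Ord k0 p := fun ho => absurd ho.2.1 (by omega)
    have hc : ¬ S.ctrl p := by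
      intro hc
      obtain ⟨hpp, -, -, hmem, -⟩ := hw.ctrl_prime S hc
      obtain ⟨k, hk, hcl⟩ := S.clean _ hmem
      obtain ⟨hCd, -, -⟩ := hcl
      obtain ⟨-, -, -, -, hqlow, -, -⟩ := hCd
      simp only at hqlow
      have hle : (P.P1 k0 : ℝ) ≤ p := by
        refine le_trans ?_ hqlow
        unfold Par.P1
        push_cast
        rw [← Real.rpow_natCast]
        apply Real.rpow_le_rpow_of_exponent_le (by norm_num)
        have h1 : (⌊P.η * k0⌋₊ : ℝ) ≤ P.η * k0 := Nat.floor_le (by positivity)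
        have h2 : P.η * k0 ≤ 1/8 * k0 := mul_le_mul_of_nonneg_right P.η1 (Nat.cast_nonneg _)
        have h3 : (k0 : ℝ) ≤ k := by exact_mod_cast hk
        have h4 := P.κ0
        have h5 : (0 : ℝ) ≤ k0 := Nat.cast_nonneg _
        nlinarith
      have : P.P1 k0 ≤ p := by exact_mod_cast hle
      omega
    rw [if_neg hc, if_neg ho]
  · intro n hn
    have h := list_le S.wt (fun q : ℕ => (q : ℝ) ^ (P.s - 1 + 4 * P.g)) 1 (by norm_num)
      n.primeFactorsList (fun q _ => hw.wt_nonneg S (by omega) q)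
      (fun q _ => Real.rpow_nonneg (Nat.cast_nonneg _) _)
      (fun q _ => by rw [one_mul]; exact hwt q)
    obtain ⟨-, -, h3⟩ := h
    rw [prod_rpow, Nat.prod_primeFactorsList (by omega), one_pow, one_mul] at h3
    exact h3

theorem wwSel (P : Par) (h0 : PhiFacts P) (hw : WFacts P) (hd : CdFacts P) : WWSel P := by
  have hη := P.η0
  set N : ℕ := ⌈1 / P.η⌉₊ with hN
  refine ⟨2 * (128 / 3) ^ N, by positivity, 2, ?_⟩
  intro k0 hk0 _ S x hx
  obtain ⟨k, hk, hcl⟩ := S.clean x hx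
  obtain ⟨hCd, hOrd, -⟩ := hcl
  have hq : x.1.Prime := hCd.1
  have hm : 0 < x.2 := hCd.2.1
  have hctrl : S.ctrl x.1 := ⟨x.2, hx⟩
  obtain ⟨-, -, -, -, huniq⟩ := hw.ctrl_prime S hctrl
  have hmo : S.mo x.1 = x.2 := (huniq x.2 hx).symm
  have hwpos := hw.w_pos S (by omega) hctrl
  have hlen : (x.2.primeFactorsList.length : ℝ) ≤ 1 / P.η := (hd.cof (by omega) hCd).2
  have hlenN : x.2.primeFactorsList.length ≤ N := by
    have : (x.2.primeFactorsList.length : ℝ) ≤ N := le_trans hlen (Nat.le_ceil _)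
    exact_mod_cast this
  have hordl : ∀ p ∈ x.2.primeFactorsList, P.Ord k0 p := fun p hp =>
    hOrd p (Nat.prime_of_mem_primeFactorsList hp) (Nat.dvd_of_mem_primeFactorsList hp)
  have hwdef : S.w x.1 * P.lo x.2 = P.Wk (Nat.log 2 (x.1 * x.2)) := by
    unfold Par.Sel.w
    rw [hmo]
    have := (h0.lo_pos x.2).ne'
    field_simp
  rw [hw.WW_mul S hq.ne_zero hm.ne', hw.WW_prime S hq]
  have hwt1 : S.wt x.1 = 2 * S.w x.1 := by
    unfold Par.Sel.wt
    rw [if_pos hctrl]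
  rw [hwt1, ← hwdef]
  have h := list_le S.wt (fun q : ℕ => 3/16 * P.v (Nat.log 2 q)) (128 / 3) (by norm_num)
    x.2.primeFactorsList (fun q _ => hw.wt_nonneg S (by omega) q)
    (fun q _ => by have := h0.v_pos (Nat.log 2 q); positivity)
    (fun q hq => by
      have hqo := hordl q hq
      have hc : ¬ S.ctrl q := fun hc => (hw.ctrl_prime S hc).2.2.1 hqo
      unfold Par.Sel.wt
      rw [if_neg hc, if_pos hqo]
      have := h0.phi_le_v hqo.1.two_le
      linarith)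
  obtain ⟨h1, h2, h3⟩ := h
  have hlo := h0.lo_pos x.2
  have h4 : S.WW x.2 ≤ (128 / 3) ^ N * P.lo x.2 := by
    refine le_trans h3 ?_
    exact mul_le_mul_of_nonneg_right (pow_le_pow_right₀ (by norm_num) hlenN) h2
  calc 2 * S.w x.1 * S.WW x.2 ≤ 2 * S.w x.1 * ((128 / 3) ^ N * P.lo x.2) :=
        mul_le_mul_of_nonneg_left h4 (by positivity)
    _ = 2 * (128 / 3) ^ N * (S.w x.1 * P.lo x.2) := by ring

end Pool.Agent.Helper55.QRH
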