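import Pool.Agent.Helper10.QRH.StC

/-!
# Project QRH (MP_768c9c_nt), module C7: Euler product bounds for the majorant
-/

set_option autoImplicit false
open scoped Classical
open Filter Topology

namespace Pool.Agent.Helper55.QRH

open Pool.Agent.Helper10.QRH

theorem geom_le {x : ℝ} (hx : 0 ≤ x) (hx2 : x ≤ 1/2) (n : ℕ) :
    ∑ i ∈ Finset.range n, x ^ i ≤ Real.exp (2 * x) := by
  have h1 := mul_neg_geom_sum x n
  have h2 : 0 ≤ x ^ n := by positivity
  have h3 : 2 * x + 1 ≤ Real.exp (2 * x) := Real.add_one_le_exp _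
  have h4 : 0 < 1 - x := by linarith
  have h5 : (1 - x) * ∑ i ∈ Finset.range n, x ^ i ≤ (1 - x) * (2 * x + 1) := by
    rw [h1]
    nlinarith
  exact le_trans (le_of_mul_le_mul_left h5 h4) h3

theorem f_pow (f : ℕ → ℝ) (h1 : f 1 = 1)
    (hmul : ∀ a b : ℕ, a ≠ 0 → b ≠ 0 → f (a * b) = f a * f b) {p : ℕ} (hp : p ≠ 0) (a : ℕ) :
    f (p ^ a) = f p ^ a := by
  induction a with
  | zero => simpa using h1
  | succ a ih => rw [pow_succ, hmul _ _ (pow_ne_zero _ hp) hp, ih, pow_succ]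

theorem euler_bound (f : ℕ → ℝ) (h1 : f 1 = 1)
    (hmul : ∀ a b : ℕ, a ≠ 0 → b ≠ 0 → f (a * b) = f a * f b) (hnn : ∀ n, 0 ≤ f n)
    (Q : Finset ℕ) : (∀ p ∈ Q, p.Prime) → (∀ p ∈ Q, f p ≤ 1/2) →
    ∀ T : Finset ℕ, (∀ n ∈ T, n ≠ 0 ∧ ∀ p : ℕ, p.Prime → p ∣ n → p ∈ Q) →
    ∑ n ∈ T, f n ≤ Real.exp (2 * ∑ p ∈ Q, f p) := by
  induction Q using Finset.induction_on with
  | empty =>
    intro _ _ T hT
    have hsub : T ⊆ {1} := by
      intro n hn
      obtain ⟨hn0, hnp⟩ := hT n hn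
      rw [Finset.mem_singleton]
      by_contra hne
      obtain ⟨p, hp, hpn⟩ := Nat.exists_prime_and_dvd hne
      exact absurd (hnp p hp hpn) (Finset.notMem_empty p)
    calc ∑ n ∈ T, f n ≤ ∑ n ∈ ({1} : Finset ℕ), f n :=
          Finset.sum_le_sum_of_subset_of_nonneg hsub (fun n _ _ => hnn n)
      _ = 1 := by rw [Finset.sum_singleton, h1]
      _ ≤ _ := by simp
  | insert p Q hpQ ih =>
    intro hQ hhalf T hT
    have hp : p.Prime := hQ p (Finset.mem_insert_self _ _)
    have hph : f p ≤ 1/2 := hhalf p (Finset.mem_insert_self _ _)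
    have ih' := ih (fun q hq => hQ q (Finset.mem_insert_of_mem hq))
      (fun q hq => hhalf q (Finset.mem_insert_of_mem hq))
    set T' : Finset ℕ := T.image (fun n => n / p ^ n.factorization p) with hT'
    set A : ℕ := T.sup (fun n => n.factorization p) with hA
    have hsum' : ∑ m ∈ T', f m ≤ Real.exp (2 * ∑ q ∈ Q, f q) := by
      apply ih'
      intro m hm
      rw [hT', Finset.mem_image] at hm
      obtain ⟨n, hn, rfl⟩ := hm
      obtain ⟨hn0, hnp⟩ := hT n hn
      refine ⟨(Nat.ordCompl_pos p hn0).ne', ?_⟩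
      intro q hq hqm
      have hqn : q ∣ n := dvd_trans hqm (Nat.ordCompl_dvd n p)
      have hqins := hnp q hq hqn
      rw [Finset.mem_insert] at hqins
      rcases hqins with rfl | h
      · exact absurd hqm (Nat.not_dvd_ordCompl hp hn0)
      · exact h
    have hinj : Set.InjOn (fun n : ℕ => (n.factorization p, n / p ^ n.factorization p)) (T : Set ℕ) := by
      intro a _ b _ hab
      simp only [Prod.mk.injEq] at hab
      rw [← Nat.ordProj_mul_ordCompl_eq_self a p, ← Nat.ordProj_mul_ordCompl_eq_self b p,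
        hab.2, hab.1]
    have hval : ∀ n ∈ T, f n = (fun x : ℕ × ℕ => f p ^ x.1 * f x.2)
        (n.factorization p, n / p ^ n.factorization p) := by
      intro n hn
      obtain ⟨hn0, -⟩ := hT n hn
      simp only
      conv_lhs => rw [← Nat.ordProj_mul_ordCompl_eq_self n p]
      rw [hmul _ _ (pow_ne_zero _ hp.ne_zero) (Nat.ordCompl_pos p hn0).ne',
        f_pow f h1 hmul hp.ne_zero]
    calc ∑ n ∈ T, f n = ∑ n ∈ T, (fun x : ℕ × ℕ => f p ^ x.1 * f x.2)
          (n.factorization p, n / p ^ n.factorization p) := Finset.sum_congr rfl hval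
      _ = ∑ x ∈ T.image (fun n : ℕ => (n.factorization p, n / p ^ n.factorization p)),
          f p ^ x.1 * f x.2 := by
          rw [Finset.sum_image hinj]
      _ ≤ ∑ x ∈ (Finset.range (A + 1)) ×ˢ T', f p ^ x.1 * f x.2 := by
          apply Finset.sum_le_sum_of_subset_of_nonneg
          · intro x hx
            rw [Finset.mem_image] at hx
            obtain ⟨n, hn, rfl⟩ := hx
            rw [Finset.mem_product, Finset.mem_range]
            refine ⟨?_, Finset.mem_image_of_mem _ hn⟩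
            have : n.factorization p ≤ A := Finset.le_sup (f := fun n => n.factorization p) hn
            simp only
            omega
          · intro x _ _
            exact mul_nonneg (pow_nonneg (hnn p) _) (hnn _)
      _ = (∑ a ∈ Finset.range (A + 1), f p ^ a) * ∑ m ∈ T', f m := by
          rw [Finset.sum_mul_sum, Finset.sum_product]
      _ ≤ Real.exp (2 * f p) * Real.exp (2 * ∑ q ∈ Q, f q) :=
          mul_le_mul (geom_le (hnn p) hph _) hsum' (Finset.sum_nonneg (fun m _ => hnn m))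
            (Real.exp_pos _).le
      _ = Real.exp (2 * ∑ q ∈ insert p Q, f q) := by
          rw [← Real.exp_add, Finset.sum_insert hpQ]
          congr 1
          ring

/-- the tail of the sum of `1/(n log^2 n)` -/
theorem log_tail (M : ℕ) (hM : 3 ≤ M) (T : Finset ℕ) (hT : ∀ n ∈ T, M ≤ n) :
    ∑ n ∈ T, 1 / ((n : ℝ) * (Real.log n) ^ 2) ≤ 1 / Real.log ((M : ℝ) - 1) := by
  have hstep : ∀ n : ℕ, 3 ≤ n → 1 / ((n : ℝ) * (Real.log n) ^ 2) ≤
      1 / Real.log ((n : ℝ) - 1) - 1 / Real.log n := by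
    intro n hn
    have hnr : (3 : ℝ) ≤ (n : ℝ) := by exact_mod_cast hn
    have hl1 : 0 < Real.log ((n : ℝ) - 1) := Real.log_pos (by linarith)
    have hl2 : 0 < Real.log n := Real.log_pos (by linarith)
    have hle : Real.log ((n : ℝ) - 1) ≤ Real.log n := Real.log_le_log (by linarith) (by linarith)
    have hdiff : 1 / (n : ℝ) ≤ Real.log n - Real.log ((n : ℝ) - 1) := by
      have h1 : Real.log (((n : ℝ) - 1) / n) ≤ ((n : ℝ) - 1) / n - 1 :=
        Real.log_le_sub_one_of_pos (by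
          apply div_pos
          · linarith
          · linarith)
      rw [Real.log_div (by linarith) (by linarith)] at h1
      have h2 : ((n : ℝ) - 1) / n - 1 = - (1 / n) := by
        field_simp
        ring
      rw [h2] at h1
      linarith
    rw [div_sub_div _ _ hl1.ne' hl2.ne', div_le_div_iff₀ (by positivity) (by positivity)]
    have h3 : 1 ≤ (n : ℝ) * (Real.log n - Real.log ((n : ℝ) - 1)) := by
      rw [div_le_iff₀ (by linarith)] at hdiff
      linarith
    calc 1 * (Real.log ((n : ℝ) - 1) * Real.log n) ≤ 1 * (Real.log n * Real.log n) := by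
          rw [one_mul, one_mul]
          exact mul_le_mul_of_nonneg_right hle hl2.le
      _ ≤ ((n : ℝ) * (Real.log n - Real.log ((n : ℝ) - 1))) * (Real.log n * Real.log n) :=
          mul_le_mul_of_nonneg_right h3 (by positivity)
      _ = (1 * Real.log n - Real.log ((n : ℝ) - 1) * 1) * ((n : ℝ) * Real.log n ^ 2) := by ring
  have htel : ∀ j : ℕ, ∑ n ∈ Finset.Ico M (M + j), 1 / ((n : ℝ) * (Real.log n) ^ 2) ≤
      1 / Real.log ((M : ℝ) - 1) - 1 / Real.log ((M : ℝ) + j - 1) := by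
    intro j
    induction j with
    | zero => simp
    | succ j ih =>
      rw [← add_assoc, Finset.sum_Ico_succ_top (by omega)]
      have h := hstep (M + j) (by omega)
      push_cast at h ⊢
      have e : (M : ℝ) + ((j : ℝ) + 1) - 1 = (M : ℝ) + j := by ring
      rw [e]
      linarith
  have hsub : T ⊆ Finset.Ico M (M + (T.sup id + 1)) := by
    intro n hn
    rw [Finset.mem_Ico]
    have h1 : n ≤ T.sup id := Finset.le_sup (f := id) hn
    exact ⟨hT n hn, by omega⟩
  have hMr : (3 : ℝ) ≤ (M : ℝ) := by exact_mod_cast hM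
  calc ∑ n ∈ T, 1 / ((n : ℝ) * (Real.log n) ^ 2) ≤
        ∑ n ∈ Finset.Ico M (M + (T.sup id + 1)), 1 / ((n : ℝ) * (Real.log n) ^ 2) :=
        Finset.sum_le_sum_of_subset_of_nonneg hsub (fun n _ _ => by positivity)
    _ ≤ 1 / Real.log ((M : ℝ) - 1) - 1 / Real.log ((M : ℝ) + ((T.sup id + 1 : ℕ) : ℝ) - 1) := htel _
    _ ≤ 1 / Real.log ((M : ℝ) - 1) := by
        have : 0 ≤ 1 / Real.log ((M : ℝ) + ((T.sup id + 1 : ℕ) : ℝ) - 1) := by
          apply div_nonneg (by norm_num)
          apply Real.log_nonneg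
          push_cast
          have : (0 : ℝ) ≤ ((T.sup id : ℕ) : ℝ) := Nat.cast_nonneg _
          linarith
        linarith

section
variable (P : Par) (hw : WFacts P)
include hw

theorem f_mul {k0 : ℕ} (S : P.Sel k0) (c : ℝ) (a b : ℕ) (ha : a ≠ 0) (hb : b ≠ 0) :
    S.WW (a * b) * ((a * b : ℕ) : ℝ) ^ c = (S.WW a * (a : ℝ) ^ c) * (S.WW b * (b : ℝ) ^ c) := by
  rw [hw.WW_mul S ha hb, Nat.cast_mul, Real.mul_rpow (Nat.cast_nonneg _) (Nat.cast_nonneg _)]
  ring

theorem f_one {k0 : ℕ} (S : P.Sel k0) (c : ℝ) : S.WW 1 * ((1 : ℕ) : ℝ) ^ c = 1 := by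
  rw [hw.WW_one S]
  simp

end

theorem sumWW (P : Par) (h0 : PhiFacts P) (hw : WFacts P) (hz : WtSize P) (hc : CandSum P) :
    SumWW P := by
  obtain ⟨hν0, hν1, hνκ, hνη, hνφ, hdd, hss, hg0, hgν, -⟩ := h0.small
  have hη := P.η0
  have hκ := P.κ0
  obtain ⟨K1, hK1⟩ := hz
  obtain ⟨K2, hK2⟩ := hc
  intro ε hε
  set δ : ℝ := min (Real.log (1 + ε) / 2) (1/2) with hδ
  have hδ0 : 0 < δ := lt_min (div_pos (Real.log_pos (by linarith)) (by norm_num)) (by norm_num)
  have hδ1 : δ ≤ Real.log (1 + ε) / 2 := min_le_left _ _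
  have hδ2 : δ ≤ 1/2 := min_le_right _ _
  -- control primes
  have hlim : Tendsto (fun k : ℕ => (2 : ℝ) ^ (-(P.κ / 2 * k))) atTop (nhds 0) := by
    have h1 : Tendsto (fun k : ℕ => ((2 : ℝ) ^ (-(P.κ / 2))) ^ k) atTop (nhds 0) :=
      tendsto_pow_atTop_nhds_zero_of_lt_one (by positivity)
        (Real.rpow_lt_one_of_one_lt_of_neg (by norm_num) (by linarith))
    refine h1.congr (fun k => ?_)
    rw [← Real.rpow_natCast, ← Real.rpow_mul (by norm_num)]
    congr 1
    ring
  obtain ⟨K3, hK3⟩ := eventually_atTop.mp (hlim.eventually (gt_mem_nhds (by positivity : 0 < δ / 2)))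
  -- ordinary primes
  obtain ⟨L, hL⟩ := exists_nat_ge (Real.exp (2 / δ) + 1)
  refine ⟨max (max K1 K2) (max K3 (max 1 ⌈((L : ℝ) + 3) / P.η⌉₊)), ?_⟩
  intro k0 hk0 hfb S T hT
  have hk1 : K1 ≤ k0 := le_trans (le_trans (le_max_left _ _) (le_max_left _ _)) hk0
  have hk2 : K2 ≤ k0 := le_trans (le_trans (le_max_right _ _) (le_max_left _ _)) hk0
  have hk3 : K3 ≤ k0 := le_trans (le_trans (le_max_left _ _) (le_max_right _ _)) hk0
  have hk4 : 1 ≤ k0 := le_trans (le_trans (le_trans (le_max_left _ _) (le_max_right _ _))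
    (le_max_right _ _)) hk0
  have hk5 : ⌈((L : ℝ) + 3) / P.η⌉₊ ≤ k0 := le_trans (le_trans (le_trans (le_max_right _ _)
    (le_max_right _ _)) (le_max_right _ _)) hk0
  have hP1 : L + 3 ≤ P.P1 k0 := by
    have h2 : ((L : ℝ) + 3) / P.η ≤ k0 := le_trans (Nat.le_ceil _) (by exact_mod_cast hk5)
    rw [div_le_iff₀ hη] at h2
    have h3 : L + 3 ≤ ⌊P.η * k0⌋₊ := by
      apply Nat.le_floor
      push_cast
      linarith
    unfold Par.P1
    exact le_trans h3 (Nat.lt_two_pow_self).le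
  obtain ⟨hwt, hwt0, -⟩ := hK1 k0 hk1 hfb S
  set f : ℕ → ℝ := fun n => S.WW n * (n : ℝ) ^ (-P.s) with hf
  have hf1 : f 1 = 1 := f_one P hw S _
  have hfmul : ∀ a b : ℕ, a ≠ 0 → b ≠ 0 → f (a * b) = f a * f b := fun a b ha hb =>
    f_mul P hw S _ a b ha hb
  have hfnn : ∀ n, 0 ≤ f n := fun n =>
    mul_nonneg (hw.WW_nonneg S hk4 n) (Real.rpow_nonneg (Nat.cast_nonneg _) _)
  set Q : Finset ℕ := T.biUnion Nat.primeFactors with hQ
  have hQp : ∀ p ∈ Q, p.Prime := by
    intro p hp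
    rw [hQ, Finset.mem_biUnion] at hp
    obtain ⟨n, _, hn⟩ := hp
    exact Nat.prime_of_mem_primeFactors hn
  have hfp : ∀ p : ℕ, p.Prime → f p = S.wt p * (p : ℝ) ^ (-P.s) := fun p hp => by
    simp only [hf]
    rw [hw.WW_prime S hp]
  have hsumQ : ∑ p ∈ Q, f p ≤ δ := by
    rw [← Finset.sum_filter_add_sum_filter_not Q (fun p => S.ctrl p)]
    have hA : ∑ p ∈ Q.filter (fun p => S.ctrl p), f p ≤ δ / 2 := by
      have h1 : ∀ p ∈ Q.filter (fun p => S.ctrl p), f p ≤ (p : ℝ) ^ (-1 + P.κ / 2 + 4 * P.g) := by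
        intro p hp
        rw [Finset.mem_filter] at hp
        have hpp := hQp p hp.1
        have hpr : (1 : ℝ) ≤ (p : ℝ) := by exact_mod_cast hpp.one_le
        have hpr0 : (0 : ℝ) < (p : ℝ) := by linarith
        rw [hfp p hpp]
        calc S.wt p * (p : ℝ) ^ (-P.s) ≤ (p : ℝ) ^ (P.s - 1 + 4 * P.g) * (p : ℝ) ^ (-P.s) :=
              mul_le_mul_of_nonneg_right (hwt p) (Real.rpow_nonneg hpr0.le _)
          _ = (p : ℝ) ^ (-1 + 4 * P.g) := by
              rw [← Real.rpow_add hpr0]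
              congr 1
              ring
          _ ≤ _ := Real.rpow_le_rpow_of_exponent_le hpr (by linarith)
      refine le_trans (Finset.sum_le_sum h1) ?_
      refine le_trans (hK2 k0 hk2 hfb _ ?_) (hK3 k0 hk3).le
      intro q hq
      rw [Finset.mem_filter] at hq
      exact (hw.ctrl_prime S hq.2).2.1
    have hB : ∑ p ∈ Q.filter (fun p => ¬ S.ctrl p), f p ≤ δ / 2 := by
      set Q' := (Q.filter (fun p => ¬ S.ctrl p)).filter (fun p => P.P1 k0 ≤ p) with hQ'
      have h1 : ∑ p ∈ Q.filter (fun p => ¬ S.ctrl p), f p = ∑ p ∈ Q', f p := by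
        symm
        rw [hQ', Finset.sum_filter]
        apply Finset.sum_congr rfl
        intro p hp
        rw [Finset.mem_filter] at hp
        split_ifs with h
        · rfl
        · rw [hfp p (hQp p hp.1), hwt0 p (by omega), zero_mul]
      rw [h1]
      have h2 : ∀ p ∈ Q', f p ≤ 1 / ((p : ℝ) * (Real.log p) ^ 2) := by
        intro p hp
        rw [hQ', Finset.mem_filter, Finset.mem_filter] at hp
        have hpp := hQp p hp.1.1
        have hpr : (1 : ℝ) < (p : ℝ) := by exact_mod_cast hpp.one_lt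
        have hpr0 : (0 : ℝ) < (p : ℝ) := by linarith
        rw [hfp p hpp]
        unfold Par.Sel.wt
        rw [if_neg hp.1.2]
        split_ifs with ho
        · unfold Par.phi
          have e : (p : ℝ) ^ (P.s - 1) * (p : ℝ) ^ (-P.s) = (p : ℝ)⁻¹ := by
            rw [← Real.rpow_add hpr0, ← Real.rpow_neg_one]
            congr 1
            ring
          have hl := Real.log_pos hpr
          rw [div_mul_eq_mul_div, e]
          apply le_of_eq
          field_simp
        · rw [zero_mul]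
          positivity
      refine le_trans (Finset.sum_le_sum h2) ?_
      refine le_trans (log_tail (P.P1 k0) (by omega) Q' ?_) ?_
      · intro p hp
        rw [hQ', Finset.mem_filter] at hp
        exact hp.2
      · have h3 : (L : ℝ) + 3 ≤ P.P1 k0 := by exact_mod_cast hP1
        have h4 : Real.exp (2 / δ) ≤ (P.P1 k0 : ℝ) - 1 := by linarith
        have h5 : 2 / δ ≤ Real.log ((P.P1 k0 : ℝ) - 1) := by
          rw [Real.le_log_iff_exp_le (by linarith [Real.exp_pos (2 / δ)])]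
          exact h4
        calc 1 / Real.log ((P.P1 k0 : ℝ) - 1) ≤ 1 / (2 / δ) :=
              one_div_le_one_div_of_le (by positivity) h5
          _ = δ / 2 := by rw [one_div_div]
    linarith
  have hhalf : ∀ p ∈ Q, f p ≤ 1/2 := by
    intro p hp
    exact le_trans (Finset.single_le_sum (f := f) (fun q _ => hfnn q) hp) (le_trans hsumQ hδ2)
  have h1T : (1 : ℕ) ∉ T := fun h => by have := hT 1 h; omega
  have hmain := euler_bound f hf1 hfmul hfnn Q hQp hhalf (insert 1 T) (by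
    intro n hn
    rw [Finset.mem_insert] at hn
    rcases hn with rfl | hn
    · refine ⟨one_ne_zero, fun p hp hd => ?_⟩
      exact absurd (Nat.dvd_one.mp hd) hp.one_lt.ne'
    · have hn2 := hT n hn
      refine ⟨by omega, fun p hp hd => ?_⟩
      rw [hQ, Finset.mem_biUnion]
      exact ⟨n, hn, Nat.mem_primeFactors.mpr ⟨hp, hd, by omega⟩⟩)
  rw [Finset.sum_insert h1T, hf1] at hmain
  have h6 : Real.exp (2 * ∑ p ∈ Q, f p) ≤ 1 + ε := by
    rw [← Real.le_log_iff_exp_le (by linarith)]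
    linarith
  linarith

theorem rankin (P : Par) (h0 : PhiFacts P) (hw : WFacts P) (hz : WtSize P) (hc : CandSum P) :
    Rankin P := by
  obtain ⟨hν0, hν1, hνκ, hνη, hνφ, hdd, hss, hg0, hgν, -⟩ := h0.small
  have hκ := P.κ0
  obtain ⟨K1, hK1⟩ := hz
  obtain ⟨K2, hK2⟩ := hc
  have hlim : Tendsto (fun k : ℕ => (2 : ℝ) ^ (-(P.κ / 2 * k))) atTop (nhds 0) := by
    have h1 : Tendsto (fun k : ℕ => ((2 : ℝ) ^ (-(P.κ / 2))) ^ k) atTop (nhds 0) :=
      tendsto_pow_atTop_nhds_zero_of_lt_one (by positivity)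
        (Real.rpow_lt_one_of_one_lt_of_neg (by norm_num) (by linarith))
    refine h1.congr (fun k => ?_)
    rw [← Real.rpow_natCast, ← Real.rpow_mul (by norm_num)]
    congr 1
    ring
  obtain ⟨K3, hK3⟩ := eventually_atTop.mp (hlim.eventually (gt_mem_nhds (by norm_num : (0 : ℝ) < 1/4)))
  refine ⟨max (max K1 K2) (max K3 1), ?_⟩
  intro k0 hk0 hfb S Z hZ T hT
  have hk1 : K1 ≤ k0 := le_trans (le_trans (le_max_left _ _) (le_max_left _ _)) hk0
  have hk2 : K2 ≤ k0 := le_trans (le_trans (le_max_right _ _) (le_max_left _ _)) hk0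
  have hk3 : K3 ≤ k0 := le_trans (le_trans (le_max_left _ _) (le_max_right _ _)) hk0
  have hk4 : 1 ≤ k0 := le_trans (le_trans (le_max_right _ _) (le_max_right _ _)) hk0
  obtain ⟨hwt, hwt0, -⟩ := hK1 k0 hk1 hfb S
  set f : ℕ → ℝ := fun n => S.WW n * (n : ℝ) ^ (-P.s + P.κ / 2) with hf
  have hf1 : f 1 = 1 := f_one P hw S _
  have hfmul : ∀ a b : ℕ, a ≠ 0 → b ≠ 0 → f (a * b) = f a * f b := fun a b ha hb =>
    f_mul P hw S _ a b ha hb
  have hfnn : ∀ n, 0 ≤ f n := fun n =>
    mul_nonneg (hw.WW_nonneg S hk4 n) (Real.rpow_nonneg (Nat.cast_nonneg _) _)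
  set Q : Finset ℕ := T.biUnion Nat.primeFactors with hQ
  have hQp : ∀ p ∈ Q, p.Prime ∧ S.ctrl p := by
    intro p hp
    rw [hQ, Finset.mem_biUnion] at hp
    obtain ⟨n, hnT, hn⟩ := hp
    have hpp := Nat.prime_of_mem_primeFactors hn
    exact ⟨hpp, (hT n hnT).2.2 p hpp (Nat.dvd_of_mem_primeFactors hn)⟩
  have hsumQ : ∑ p ∈ Q, f p ≤ 1/4 := by
    have h1 : ∀ p ∈ Q, f p ≤ (p : ℝ) ^ (-1 + P.κ / 2 + 4 * P.g) := by
      intro p hp
      have hpp := (hQp p hp).1
      have hpr : (1 : ℝ) ≤ (p : ℝ) := by exact_mod_cast hpp.one_le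
      have hpr0 : (0 : ℝ) < (p : ℝ) := by linarith
      simp only [hf]
      rw [hw.WW_prime S hpp]
      calc S.wt p * (p : ℝ) ^ (-P.s + P.κ / 2) ≤
            (p : ℝ) ^ (P.s - 1 + 4 * P.g) * (p : ℝ) ^ (-P.s + P.κ / 2) :=
            mul_le_mul_of_nonneg_right (hwt p) (Real.rpow_nonneg hpr0.le _)
        _ = (p : ℝ) ^ (-1 + P.κ / 2 + 4 * P.g) := by
            rw [← Real.rpow_add hpr0]
            congr 1
            ring
    refine le_trans (Finset.sum_le_sum h1) ?_
    refine le_trans (hK2 k0 hk2 hfb _ ?_) (hK3 k0 hk3).le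
    intro q hq
    exact (hw.ctrl_prime S (hQp q hq).2).2.1
  have hhalf : ∀ p ∈ Q, f p ≤ 1/2 := by
    intro p hp
    exact le_trans (Finset.single_le_sum (f := f) (fun q _ => hfnn q) hp)
      (le_trans hsumQ (by norm_num))
  have hmain := euler_bound f hf1 hfmul hfnn Q (fun p hp => (hQp p hp).1) hhalf T (by
    intro n hn
    have hn2 := (hT n hn).2.1
    have hn3 : 1 ≤ n := by exact_mod_cast hn2
    refine ⟨by omega, fun p hp hd => ?_⟩
    rw [hQ, Finset.mem_biUnion]
    exact ⟨n, hn, Nat.mem_primeFactors.mpr ⟨hp, hd, by omega⟩⟩)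
  have hexp : Real.exp (2 * ∑ p ∈ Q, f p) ≤ 2 := by
    have h1 : Real.exp (2 * ∑ p ∈ Q, f p) ≤ Real.exp (1/2) := Real.exp_le_exp.mpr (by linarith)
    have h2 : Real.exp (1/2) * Real.exp (1/2) = Real.exp 1 := by
      rw [← Real.exp_add]
      norm_num
    have h3 := Real.exp_one_lt_d9
    have h4 : 0 < Real.exp (1/2) := Real.exp_pos _
    nlinarith
  have hZpos : 0 < Z := by linarith
  calc ∑ b ∈ T, S.WW b * (b : ℝ) ^ (-P.s) ≤ ∑ b ∈ T, f b * Z ^ (-(P.κ / 2)) := by
        apply Finset.sum_le_sum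
        intro b hb
        obtain ⟨hZb, hb1, -⟩ := hT b hb
        have hb0 : (0 : ℝ) < (b : ℝ) := by linarith
        have e : (b : ℝ) ^ (-P.s) = (b : ℝ) ^ (-P.s + P.κ / 2) * (b : ℝ) ^ (-(P.κ / 2)) := by
          rw [← Real.rpow_add hb0]
          congr 1
          ring
        rw [e, ← mul_assoc]
        apply mul_le_mul_of_nonneg_left _ (hfnn b)
        exact Real.rpow_le_rpow_of_nonpos hZpos hZb (by linarith)
    _ = (∑ b ∈ T, f b) * Z ^ (-(P.κ / 2)) := by rw [Finset.sum_mul]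
    _ ≤ 2 * Z ^ (-(P.κ / 2)) :=
        mul_le_mul_of_nonneg_right (le_trans hmain hexp) (Real.rpow_nonneg hZpos.le _)

end Pool.Agent.Helper55.QRH
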